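import Mathlib
import Pool.Agent.Helper9.NS
import Pool.Agent.Helper67.KP.Gen
import Pool.Agent.Helper67.KP.Refl
import Pool.Agent.Helper56.KP.Quad

/-!
# KP: the reflections of the function field of a plane cubic
-/

set_option linter.unusedSectionVars false

namespace Pool.Agent.Helper67.KP

open VC VF Function Polynomial Pool.Agent.Helper21.TO Pool.Agent.Helper15.GT Pool.Agent.Helper15.KP
open Pool.Agent.Helper51.VN (Harm)

universe u

section ref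

variable (k L Ω : Type u) [Field k] [Field L] [Field Ω] [Algebra k L] [Algebra L Ω] [Algebra k Ω]
  [IsScalarTower k L Ω]

/-- `R` is an involution of `Ω` over `L` and the fixed field is the field of rational functions `L (r)`. -/
def Ref (R : Ω ≃ₐ[k] Ω) : Prop :=
  R * R = 1 ∧ R ≠ 1 ∧ (∀ z : L, R (algebraMap L Ω z) = algebraMap L Ω z) ∧ ∃ r : Ω, R r = r ∧
    (∀ p : L[X], p.eval₂ (IsScalarTower.toAlgHom k L Ω : L →+* Ω) r = 0 → p = 0) ∧
    ∀ z : Ω, R z = z → ∃ p q : L[X], q.eval₂ (IsScalarTower.toAlgHom k L Ω : L →+* Ω) r ≠ 0 ∧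
      z * q.eval₂ (IsScalarTower.toAlgHom k L Ω : L →+* Ω) r = p.eval₂ (IsScalarTower.toAlgHom k L Ω : L →+* Ω) r

variable {k L Ω}

lemma Ref.fix {R : Ω ≃ₐ[k] Ω} (h : Ref k L Ω R) (z : L) : R (algebraMap L Ω z) = algebraMap L Ω z := h.2.2.1 z

theorem Ref.harm [IsAlgClosed k] [CharZero k] {R : Ω ≃ₐ[k] Ω} (h : Ref k L Ω R) (hL : IsFunctionField k L)
    {u : RPl k Ω → k} (hu : HF k Ω u) :
    ∃ l : Place k L → k, Harm hL l ∧
      ∀ w : RPl k Ω, u w + u (w.comap (R : Ω →ₐ[k] Ω)) = l (w.pl hL (IsScalarTower.toAlgHom k L Ω)) := by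
  obtain ⟨h1, h2, h3, r, h4, h5, h6⟩ := h
  exact hf_refl hL (IsScalarTower.toAlgHom k L Ω) R h1 h2 h3 r h4 h5 h6 hu

lemma gen_k {S : Set Ω} (h : IntermediateField.adjoin L S = ⊤) :
    IntermediateField.adjoin k (Set.range (IsScalarTower.toAlgHom k L Ω) ∪ S) = ⊤ := by
  rw [eq_top_iff]
  intro z _
  have hz : z ∈ IntermediateField.adjoin L S := by rw [h]; exact IntermediateField.mem_top
  induction hz using IntermediateField.adjoin_induction with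
  | mem x hx => exact IntermediateField.subset_adjoin _ _ (Or.inr hx)
  | algebraMap x => exact IntermediateField.subset_adjoin _ _ (Or.inl ⟨x, rfl⟩)
  | add x y _ _ hx hy => exact add_mem (hx trivial) (hy trivial)
  | inv x _ hx => exact inv_mem (hx trivial)
  | mul x y _ _ hx hy => exact mul_mem (hx trivial) (hy trivial)

theorem exists_ref [CharZero k] (r w : Ω) (htr : Transcendental L r) (Q : L[X])
    (hw : w ^ 2 = aeval r Q) (hQ : ∀ g : L[X], g ^ 2 ≠ Q) (hgen : IntermediateField.adjoin L {r, w} = ⊤) :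
    ∃ R : Ω ≃ₐ[k] Ω, Ref k L Ω R ∧ R r = r ∧ R w = - w := by
  obtain ⟨R, h1, h2, h3, h4, h5, h6⟩ := exists_refl (IsScalarTower.toAlgHom k L Ω) r w
    (fun p hp => (transcendental_iff.mp htr) p hp) Q hw hQ (gen_k hgen)
  exact ⟨R, ⟨h1, h2, h3, r, h4, fun p hp => (transcendental_iff.mp htr) p hp, h6⟩, h4, h5⟩

end ref

namespace Cfg

variable {k L Ω : Type u} [Field k] [CharZero k] [Field L] [Field Ω] [Algebra k L] [Algebra L Ω] [Algebra k Ω]
  [IsScalarTower k L Ω] [CharZero L] (D : Cfg L Ω)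

include D in
/-- The reflection in the origin. -/
theorem exists_nu : ∃ R : Ω ≃ₐ[k] Ω, Ref k L Ω R ∧ R (xx D.C D.V 1 0 2 D.s D.t) = xx D.C D.V 1 0 2 D.s D.t ∧
    R (yy D.C D.V 1 0 2 D.s D.t) = - yy D.C D.V 1 0 2 D.s D.t := by
  have : CharZero Ω := charZero_of_injective_algebraMap (algebraMap L Ω).injective
  refine exists_ref _ _ (D.tr_x (by decide) (by decide) (by decide))
    (X ^ 3 + Polynomial.C (27 * PS D.c) * X + Polynomial.C (54 * PT D.c)) ?_ ?_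
    (D.gen_xy (by decide) (by decide) (by decide))
  · rw [weier D.hRC (by decide) (by decide) (by decide) D.eqn, map_add, map_add, map_pow, map_mul, aeval_X, aeval_C,
      aeval_C, map_mul, map_mul, map_PS, map_PT, map_ofNat, map_ofNat]
  · intro g hg
    have h1 : (X ^ 3 + Polynomial.C (27 * PS D.c) * X + Polynomial.C (54 * PT D.c) : L[X]).natDegree = 3 := by
      compute_degree!
    rw [← hg, natDegree_pow] at h1
    omega

/-- The reflection in the direction of the point `m` at infinity. -/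
theorem exists_rho (m : Fin 3) : ∃ R : Ω ≃ₐ[k] Ω, Ref k L Ω R ∧
    ∀ i k' : Fin 3, R (xx D.C D.V i k' m D.s D.t) = xx D.C D.V k' i m D.s D.t ∧
      R (yy D.C D.V i k' m D.s D.t) = - yy D.C D.V k' i m D.s D.t := by
  obtain ⟨R, hR, h1, h2⟩ := exists_ref (k := k) (D.r m) (D.w m) (D.tr_r m) (D.Q m) (D.w_sq m) (D.Q_not_sq m)
    (D.gen_rw m)
  refine ⟨R, hR, fun i k' => ?_⟩
  have hq : ∀ i k' : Fin 3, R (D.q i k') = D.q i k' := fun i k' => by
    have : D.q i k' = algebraMap L Ω (D.c 0 * (D.v i - D.v k')) := by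
      rw [map_mul, map_sub]; rfl
    rw [this, hR.fix]
  have e3 : R (q3 D.C (D.V m)) = q3 D.C (D.V m) := by
    have : q3 D.C (D.V m) = algebraMap L Ω (q3 D.c (D.v m)) := by
      simp only [q3, a1, a0, b2, b1, map_add, map_mul, map_sub, map_pow, map_ofNat]
    rw [this, hR.fix]
  have e2 : R (q2 D.C (D.V m)) = q2 D.C (D.V m) := by
    have : q2 D.C (D.V m) = algebraMap L Ω (q2 D.c (D.v m)) := by
      simp only [q2, a1, a0, b2, b1, b0, map_add, map_mul, map_sub, map_pow, map_ofNat]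
    rw [this, hR.fix]
  have e1 : R (q1 D.C (D.V m)) = q1 D.C (D.V m) := by
    have : q1 D.C (D.V m) = algebraMap L Ω (q1 D.c (D.v m)) := by
      simp only [q1, a1, a0, b1, b0, map_add, map_mul, map_sub, map_ofNat, map_pow]
    rw [this, hR.fix]
  have hx : ∀ i k' : Fin 3, xx D.C D.V i k' m D.s D.t = xr (D.q i k') (q3 D.C (D.V m)) (q2 D.C (D.V m)) (D.r m)
    (D.w m) := fun i k' => rfl
  have hy : ∀ i k' : Fin 3, yy D.C D.V i k' m D.s D.t = yr (D.q i k') (q3 D.C (D.V m)) (q2 D.C (D.V m))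
    (q1 D.C (D.V m)) (D.r m) (D.w m) := fun i k' => rfl
  have hqn : D.q k' i = - D.q i k' := by unfold q; ring
  constructor
  · rw [hx, hx, hqn]
    simp only [xr, map_add, map_mul, map_pow, map_ofNat, hq, e3, e2, h1, h2]
    ring
  · rw [hy, hy, hqn]
    simp only [yr, map_add, map_mul, map_pow, map_ofNat, hq, e3, e2, e1, h1, h2]
    ring

/-- An automorphism which permutes the points at infinity. -/
theorem eq_of (g R : Ω ≃ₐ[k] Ω) (σ : Fin 3 → Fin 3) (hσ : Function.Injective σ) (hC : ∀ j, g (D.C j) = D.C j)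
    (hV : ∀ j, g (D.V j) = D.V (σ j)) (hR : ∀ z : L, R (algebraMap L Ω z) = algebraMap L Ω z)
    (hx : g (xx D.C D.V 1 0 2 D.s D.t) = R (xx D.C D.V (σ 1) (σ 0) (σ 2) D.s D.t))
    (hy : g (yy D.C D.V 1 0 2 D.s D.t) = R (yy D.C D.V (σ 1) (σ 0) (σ 2) D.s D.t)) :
    g D.s = R D.s ∧ g D.t = R D.t := by
  have h10 : σ 1 ≠ σ 0 := fun h => absurd (hσ h) (by decide)
  have h02 : σ 0 ≠ σ 2 := fun h => absurd (hσ h) (by decide)
  have h21 : σ 2 ≠ σ 1 := fun h => absurd (hσ h) (by decide)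
  have hRC : ∀ j, R (D.C j) = D.C j := fun j => hR _
  have hRV : ∀ j, R (D.V j) = D.V j := fun j => hR _
  have e1 : g (xx D.C D.V 1 0 2 D.s D.t) = xx D.C D.V (σ 1) (σ 0) (σ 2) (g D.s) (g D.t) := by
    have h := map_xx (g : Ω →+* Ω) D.C D.V 1 0 2 D.s D.t
    have a : (fun j => (g : Ω →+* Ω) (D.C j)) = D.C := funext hC
    have b : (fun j => (g : Ω →+* Ω) (D.V j)) = fun j => D.V (σ j) := funext hV
    rw [a, b] at h
    exact h
  have e2 : g (yy D.C D.V 1 0 2 D.s D.t) = yy D.C D.V (σ 1) (σ 0) (σ 2) (g D.s) (g D.t) := by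
    have h := map_yy (g : Ω →+* Ω) D.C D.V 1 0 2 D.s D.t
    have a : (fun j => (g : Ω →+* Ω) (D.C j)) = D.C := funext hC
    have b : (fun j => (g : Ω →+* Ω) (D.V j)) = fun j => D.V (σ j) := funext hV
    rw [a, b] at h
    exact h
  have e3 : R (xx D.C D.V (σ 1) (σ 0) (σ 2) D.s D.t) = xx D.C D.V (σ 1) (σ 0) (σ 2) (R D.s) (R D.t) := by
    have h := map_xx (R : Ω →+* Ω) D.C D.V (σ 1) (σ 0) (σ 2) D.s D.t
    have a : (fun j => (R : Ω →+* Ω) (D.C j)) = D.C := funext hRC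
    have b : (fun j => (R : Ω →+* Ω) (D.V j)) = D.V := funext hRV
    rw [a, b] at h
    exact h
  have e4 : R (yy D.C D.V (σ 1) (σ 0) (σ 2) D.s D.t) = yy D.C D.V (σ 1) (σ 0) (σ 2) (R D.s) (R D.t) := by
    have h := map_yy (R : Ω →+* Ω) D.C D.V (σ 1) (σ 0) (σ 2) D.s D.t
    have a : (fun j => (R : Ω →+* Ω) (D.C j)) = D.C := funext hRC
    have b : (fun j => (R : Ω →+* Ω) (D.V j)) = D.V := funext hRV
    rw [a, b] at h
    exact h
  have htr : ∀ z : Ω, Transcendental L z → Transcendental L (R z) := by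
    intro z hz h
    apply hz
    obtain ⟨p, hp, hp'⟩ := h
    refine ⟨p, hp, ?_⟩
    have h1 : R (aeval z p) = aeval (R z) p := by
      rw [aeval_def, aeval_def]
      have h2 := Polynomial.hom_eval₂ p (algebraMap L Ω) (R : Ω →+* Ω) z
      have h3 : (R : Ω →+* Ω).comp (algebraMap L Ω) = algebraMap L Ω := RingHom.ext hR
      rw [h3] at h2
      exact h2
    exact (map_eq_zero_iff R R.injective).mp (h1.trans hp')
  refine D.det h10 (m := σ 2) ?_ ?_ ?_ ?_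
  · rw [← e1, ← e3, hx]
  · rw [← e2, ← e4, hy]
  · rw [← e3]
    exact htr _ (D.tr_x h10 h02 h21)
  · have h5 : R D.s - D.V (σ 2) * R D.t = R (D.r (σ 2)) := by
      unfold r
      rw [map_sub, map_mul, hRV]
    rw [h5]
    exact htr _ (D.tr_r _)

/-- The Weierstrass coordinates with the origin `σ 0`. -/
lemma xx_fin (σ : Fin 3 → Fin 3) (hσ : Function.Injective σ) {i m : Fin 3} (h1 : i ≠ σ 0) (h2 : σ 0 ≠ m)
    (h3 : m ≠ i) : xx D.C D.V (σ 1) (σ 0) (σ 2) D.s D.t = xx D.C D.V i (σ 0) m D.s D.t ∧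
      yy D.C D.V (σ 1) (σ 0) (σ 2) D.s D.t = yy D.C D.V i (σ 0) m D.s D.t := by
  have h10 : σ 1 ≠ σ 0 := fun h => absurd (hσ h) (by decide)
  have h02 : σ 0 ≠ σ 2 := fun h => absurd (hσ h) (by decide)
  have h21 : σ 2 ≠ σ 1 := fun h => absurd (hσ h) (by decide)
  have key : ∀ a b c i m : Fin 3, b ≠ a → a ≠ c → c ≠ b → i ≠ a → a ≠ m → m ≠ i →
      (b = i ∧ c = m) ∨ (b = m ∧ c = i) := by decide
  rcases key (σ 0) (σ 1) (σ 2) i m h10 h02 h21 h1 h2 h3 with ⟨e1, e2⟩ | ⟨e1, e2⟩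
  · rw [e1, e2]; exact ⟨rfl, rfl⟩
  · rw [e1, e2]
    exact ⟨xx_symm D.hRC h2.symm h1.symm h3.symm _ _, yy_symm D.hRC h2.symm h1.symm h3.symm D.eqn⟩

/-- Classification, the case of the trivial sign. -/
theorem class_pos (g : Ω ≃ₐ[k] Ω) (σ : Fin 3 → Fin 3) (hσ : Function.Injective σ) (hC : ∀ j, g (D.C j) = D.C j)
    (hV : ∀ j, g (D.V j) = D.V (σ j)) (hx : g (xx D.C D.V 1 0 2 D.s D.t) = xx D.C D.V 1 0 2 D.s D.t)
    (hy : g (yy D.C D.V 1 0 2 D.s D.t) = yy D.C D.V 1 0 2 D.s D.t) :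
    (g D.s = D.s ∧ g D.t = D.t) ∨ ∃ ν ρ : Ω ≃ₐ[k] Ω, Ref k L Ω ν ∧ Ref k L Ω ρ ∧ g D.s = ν (ρ D.s) ∧
      g D.t = ν (ρ D.t) := by
  by_cases h0 : σ 0 = 0
  · left
    obtain ⟨e1, e2⟩ := D.xx_fin σ hσ (i := 1) (m := 2) (by rw [h0]; decide) (by rw [h0]; decide) (by decide)
    rw [h0] at e1 e2
    refine D.eq_of g 1 σ hσ hC hV (fun _ => rfl) ?_ ?_
    · rw [hx, h0, e1]; rfl
    · rw [hy, h0, e2]; rfl
  · right
    obtain ⟨ν, hν, hνx, hνy⟩ := exists_nu (k := k) D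
    obtain ⟨m, hm1, hm2⟩ : ∃ m : Fin 3, m ≠ 0 ∧ m ≠ σ 0 := by
      have : ∀ a : Fin 3, ∃ m : Fin 3, m ≠ 0 ∧ m ≠ a := by decide
      exact this _
    obtain ⟨ρ, hρ, hρ'⟩ := D.exists_rho (k := k) m
    obtain ⟨e1, e2⟩ := D.xx_fin σ hσ (i := 0) (m := m) (Ne.symm h0) hm2.symm hm1
    obtain ⟨hρx, hρy⟩ := hρ' 0 (σ 0)
    obtain ⟨e3, e4⟩ := D.xx_fin id Function.injective_id (i := σ 0) (m := m) h0 hm1.symm hm2
    simp only [id] at e3 e4
    refine ⟨ν, ρ, hν, hρ, ?_⟩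
    refine D.eq_of g (ν * ρ) σ hσ hC hV (fun z => ?_) ?_ ?_
    · rw [AlgEquiv.mul_apply, hρ.fix, hν.fix]
    · rw [hx, e1, AlgEquiv.mul_apply, hρx, ← e3, hνx]
    · rw [hy, e2, AlgEquiv.mul_apply, hρy, ← e4, map_neg, hνy, neg_neg]

/-- Classification, the case of the nontrivial sign. -/
theorem class_neg (g : Ω ≃ₐ[k] Ω) (σ : Fin 3 → Fin 3) (hσ : Function.Injective σ) (hC : ∀ j, g (D.C j) = D.C j)
    (hV : ∀ j, g (D.V j) = D.V (σ j)) (hx : g (xx D.C D.V 1 0 2 D.s D.t) = xx D.C D.V 1 0 2 D.s D.t)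
    (hy : g (yy D.C D.V 1 0 2 D.s D.t) = - yy D.C D.V 1 0 2 D.s D.t) :
    ∃ R : Ω ≃ₐ[k] Ω, Ref k L Ω R ∧ g D.s = R D.s ∧ g D.t = R D.t := by
  by_cases h0 : σ 0 = 0
  · obtain ⟨ν, hν, hνx, hνy⟩ := exists_nu (k := k) D
    obtain ⟨e1, e2⟩ := D.xx_fin σ hσ (i := 1) (m := 2) (by rw [h0]; decide) (by rw [h0]; decide) (by decide)
    rw [h0] at e1 e2
    refine ⟨ν, hν, D.eq_of g ν σ hσ hC hV hν.fix ?_ ?_⟩
    · rw [hx, h0, e1, hνx]
    · rw [hy, h0, e2, hνy]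
  · obtain ⟨m, hm1, hm2⟩ : ∃ m : Fin 3, m ≠ 0 ∧ m ≠ σ 0 := by
      have : ∀ a : Fin 3, ∃ m : Fin 3, m ≠ 0 ∧ m ≠ a := by decide
      exact this _
    obtain ⟨ρ, hρ, hρ'⟩ := D.exists_rho (k := k) m
    obtain ⟨e1, e2⟩ := D.xx_fin σ hσ (i := 0) (m := m) (Ne.symm h0) hm2.symm hm1
    obtain ⟨hρx, hρy⟩ := hρ' 0 (σ 0)
    obtain ⟨e3, e4⟩ := D.xx_fin id Function.injective_id (i := σ 0) (m := m) h0 hm1.symm hm2
    simp only [id] at e3 e4
    refine ⟨ρ, hρ, D.eq_of g ρ σ hσ hC hV hρ.fix ?_ ?_⟩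
    · rw [hx, e1, hρx, ← e3]
    · rw [hy, e2, hρy, ← e4]

end Cfg

end Pool.Agent.Helper67.KP
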