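import Mathlib
import Pool.Agent.Helper9.NS
import Pool.Agent.Helper67.KP.Cst

/-!
# KP: the correspondence of step A
-/

set_option linter.unusedSectionVars false

namespace Pool.Agent.Helper67.KP

open VC VF Function Polynomial Pool.Agent.Helper21.TO Pool.Agent.Helper15.GT Pool.Agent.Helper15.KP
open Pool.Agent.Helper51.VN (Harm)

universe u

variable {k K L F Ω : Type u} [Field k] [Field K] [Field L] [Field F] [Field Ω] [Algebra k K] [Algebra K L]
  [Algebra k L] [Algebra L Ω] [Algebra K Ω] [Algebra k Ω] [Algebra k F] [Algebra F Ω] [IsScalarTower k K L]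
  [IsScalarTower k L Ω] [IsScalarTower k F Ω] [IsScalarTower K L Ω] [IsScalarTower k K Ω] [CharZero k] [CharZero L]
  [CharZero Ω] [CharZero K] [IsAlgClosed k]

lemma harm_sub {hL : IsFunctionField k L} {l l' : Place k L → k} (h : Harm hL l) (h' : Harm hL l') :
    Harm hL (fun v => l v - l' v) := by
  intro f hf
  have h1 := h f hf
  have h2 := h' f hf
  simp only [mul_sub, Finset.sum_sub_distrib]
  rw [h1, h2, sub_zero]

lemma harm_zero {hL : IsFunctionField k L} : Harm hL (fun _ => (0 : k)) := by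
  intro f hf
  simp

lemma pl_ref (hL : IsFunctionField k L) {R : Ω ≃ₐ[k] Ω} (hR : Ref k L Ω R) (w : RPl k Ω) :
    (w.comap (R : Ω →ₐ[k] Ω)).pl hL (IsScalarTower.toAlgHom k L Ω) = w.pl hL (IsScalarTower.toAlgHom k L Ω) := by
  ext z
  change R (algebraMap L Ω z) ∈ w.ring ↔ algebraMap L Ω z ∈ w.ring
  rw [hR.fix]

namespace Ctx

variable (Z : Ctx k K L F Ω)

theorem hrm_pos (hL : IsFunctionField k L) {u : RPl k F → k} (hu : HF k F u) (g : Ω ≃ₐ[k] Ω) (h1 : g Z.T = Z.T)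
    (h2 : g Z.X0 = Z.X0) (h3 : g Z.Y0 = Z.Y0) :
    ∃ l : Place k L → k, Harm hL l ∧ ∀ w : RPl k Ω, u ((w.comap (g : Ω →ₐ[k] Ω)).comap e) =
      u (w.comap e) + l (w.pl hL (IsScalarTower.toAlgHom k L Ω)) := by
  rcases Z.cls_pos g h1 h2 h3 with h | ⟨ν, ρ, hν, hρ, h⟩
  · refine ⟨fun _ => 0, harm_zero, fun w => ?_⟩
    rw [RPl.comap_comap, h, add_zero]
  · have hu' : HF k Ω (fun w => u (w.comap e)) := hf_comap hu e
    obtain ⟨l1, hl1, h4⟩ := hρ.harm hL hu'
    obtain ⟨l2, hl2, h5⟩ := hν.harm hL hu'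
    refine ⟨_, harm_sub hl1 hl2, fun w => ?_⟩
    have h6 := h4 (w.comap (ν : Ω →ₐ[k] Ω))
    have h7 := h5 w
    rw [pl_ref hL hν] at h6
    simp only [RPl.comap_comap] at h6 h7 ⊢
    have h8 : (ν : Ω →ₐ[k] Ω).comp ((ρ : Ω →ₐ[k] Ω).comp (e (k := k) (F := F))) =
      ((ν : Ω →ₐ[k] Ω).comp (ρ : Ω →ₐ[k] Ω)).comp e := rfl
    rw [h, ← h6, ← h7, h8]
    ring

theorem hrm_neg (hL : IsFunctionField k L) {u : RPl k F → k} (hu : HF k F u) (g : Ω ≃ₐ[k] Ω)
    (h1 : g Z.T = - Z.T) (h2 : g Z.X0 = Z.X0) (h3 : g Z.Y0 = - Z.Y0) :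
    ∃ l : Place k L → k, Harm hL l ∧ ∀ w : RPl k Ω, u ((w.comap (g : Ω →ₐ[k] Ω)).comap e) =
      - u ((w.comap e).comap ((Z.D.ι : F ≃ₐ[k] F) : F →ₐ[k] F)) + l (w.pl hL (IsScalarTower.toAlgHom k L Ω)) := by
  obtain ⟨R, hR, h⟩ := Z.cls_neg g h1 h2 h3
  have hu' : HF k Ω (fun w => u ((w.comap e).comap ((Z.D.ι : F ≃ₐ[k] F) : F →ₐ[k] F))) :=
    hf_comap (hf_comap hu ((Z.D.ι : F ≃ₐ[k] F) : F →ₐ[k] F)) e
  obtain ⟨l1, hl1, h4⟩ := hR.harm hL hu'
  refine ⟨l1, hl1, fun w => ?_⟩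
  have h6 := h4 w
  simp only [RPl.comap_comap] at h6 ⊢
  rw [h, ← h6]
  ring_nf
  rfl

include Z in
/-- The elements of `L` in `F`. -/
lemma fix_L [FiniteDimensional F Ω] [IsGalois F Ω] [Algebra.IsAlgebraic K L] (z : L) :
    (∀ g : Ω ≃ₐ[F] Ω, g (algebraMap L Ω z) = algebraMap L Ω z) ↔ z ∈ Set.range (algebraMap K L) := by
  constructor
  · intro h
    obtain ⟨f, hf⟩ := (IsGalois.mem_range_algebraMap_iff_fixed (F := F) (algebraMap L Ω z)).mpr h
    obtain ⟨i1, i2⟩ := Z.galE'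
    have h1 : ∀ g : Ω ≃ₐ[Z.E'] Ω, g (algebraMap L Ω z) = algebraMap L Ω z := by
      intro g
      have hg : ∀ m ∈ Z.E', g m = m := fun m hm => g.commutes (⟨m, hm⟩ : Z.E')
      have hT : Z.T ∈ Z.E' := IntermediateField.subset_adjoin k _ (by simp)
      have hx : Z.X0 ∈ Z.E' := IntermediateField.subset_adjoin k _ (by simp)
      have hy : Z.Y0 ∈ Z.E' := IntermediateField.subset_adjoin k _ (by simp)
      rcases Z.cls_pos (g.restrictScalars k) (hg _ hT) (hg _ hx) (hg _ hy) with h2 | ⟨ν, ρ, hν, hρ, h2⟩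
      · have h3 := congrArg (fun j => j f) h2
        change g (algebraMap F Ω f) = algebraMap F Ω f at h3
        rw [← hf]; exact h3
      · have h3 := congrArg (fun j => j f) h2
        change g (algebraMap F Ω f) = ν (ρ (algebraMap F Ω f)) at h3
        rw [hf, hρ.fix, hν.fix] at h3
        exact h3
    obtain ⟨m, hm⟩ := (IsGalois.mem_range_algebraMap_iff_fixed (F := Z.E') (algebraMap L Ω z)).mpr h1
    have h4 : algebraMap L Ω z ∈ Z.E' := by
      rw [← hm]; exact m.2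
    have h5 : Z.E' ≤ (IntermediateField.adjoin K {Z.X0, Z.Y0}).restrictScalars k := by
      rw [IntermediateField.adjoin_le_iff]
      rintro _ (rfl | rfl | rfl)
      · have : Z.T = algebraMap K Ω Z.τ := by
          rw [IsScalarTower.algebraMap_apply K L Ω]; exact Z.hτ.symm
        rw [this]
        exact (IntermediateField.adjoin K {Z.X0, Z.Y0}).algebraMap_mem _
      · exact IntermediateField.subset_adjoin K _ (by simp)
      · exact IntermediateField.subset_adjoin K _ (by simp)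
    have h6 : Transcendental K Z.X0 := by
      intro h7
      exact Z.B.tr_x (by decide) (by decide) (by decide) (h7.extendScalars (algebraMap K L).injective)
    obtain ⟨c, hc⟩ : ∃ c : Fin 10 → K, ∀ j, algebraMap K L (c j) = Z.B.c j :=
      ⟨fun j => aeval (Z.τ ^ 2) (Z.D.c j), fun j => by
        rw [Z.hc, ← aeval_algebraMap_apply, map_pow]⟩
    have h8 : ∀ j, algebraMap K Ω (c j) = Z.B.C j := fun j => by
      rw [IsScalarTower.algebraMap_apply K L Ω, hc]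
    have h9 := mem_of_algebraic Z.X0 Z.Y0 h6 (27 * PS c) (54 * PT c) (by
      rw [weier Z.B.hRC (by decide) (by decide) (by decide) Z.B.eqn, map_mul, map_mul, map_PS, map_PT, map_ofNat,
        map_ofNat]
      simp only [h8]) (algebraMap L Ω z) (h5 h4)
      ((Algebra.IsAlgebraic.isAlgebraic (R := K) z).algebraMap)
    obtain ⟨a, ha⟩ := h9
    refine ⟨a, (algebraMap L Ω).injective ?_⟩
    rw [← ha, IsScalarTower.algebraMap_apply K L Ω]
  · rintro ⟨a, rfl⟩ g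
    have ha : a ∈ IntermediateField.adjoin k {Z.τ} := by rw [Z.genK]; exact IntermediateField.mem_top
    induction ha using IntermediateField.adjoin_induction with
    | mem x hx =>
      obtain rfl : x = Z.τ := hx
      rw [Z.hτ]
      exact g.commutes _
    | algebraMap x =>
      rw [← IsScalarTower.algebraMap_apply k K L, ← IsScalarTower.algebraMap_apply k L Ω,
        IsScalarTower.algebraMap_apply k F Ω]
      exact g.commutes _
    | add x y _ _ hx hy => rw [map_add, map_add, map_add, hx, hy]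
    | inv x _ hx => rw [map_inv₀, map_inv₀, map_inv₀, hx]
    | mul x y _ _ hx hy => rw [map_mul, map_mul, map_mul, hx, hy]

/-- STEP A, the data. -/
theorem exists_A1 [FiniteDimensional F Ω] [IsGalois F Ω] [Algebra.IsAlgebraic K L] (hK : IsFunctionField k K)
    (hL : IsFunctionField k L) (hconst : ∀ μ : Place k K → k, Harm hK μ → ∀ P Q, μ P = μ Q) :
    ∃ (G Γ : Type u) (_ : Group G) (_ : Fintype G) (_ : Group Γ)
      (_ : Fintype Γ), Nonempty (A1 Z.D Ω G Γ) := by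
  classical
  obtain ⟨i1, i2⟩ := Z.galE
  have hl : Z.l ∈ Z.E := IntermediateField.subset_adjoin k _ (by simp)
  have hx : Z.x ∈ Z.E := IntermediateField.subset_adjoin k _ (by simp)
  have hy : Z.y ∈ Z.E := IntermediateField.subset_adjoin k _ (by simp)
  let f1 : Fintype (Ω ≃ₐ[F] Ω) := Fintype.ofFinite _
  let f2 : Fintype (Ω ≃ₐ[Z.E] Ω) := Fintype.ofFinite _
  let ρ : (Ω ≃ₐ[F] Ω) →* (Ω ≃ₐ[k] Ω) := AlgEquiv.restrictScalarsHom k
  let ρ' : (Ω ≃ₐ[Z.E] Ω) →* (Ω ≃ₐ[k] Ω) := AlgEquiv.restrictScalarsHom k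
  have hρ' : ∀ g : Ω ≃ₐ[Z.E] Ω, ∀ m ∈ Z.E, ρ' g m = m := fun g m hm => g.commutes (⟨m, hm⟩ : Z.E)
  have hsgn := fun g : Ω ≃ₐ[Z.E] Ω => Z.sgn (ρ' g) (hρ' g _ hl) (hρ' g _ hx) (hρ' g _ hy)
  have hst : ∀ (g : Ω ≃ₐ[F] Ω) (z : L), ρ g (IsScalarTower.toAlgHom k L Ω z) ∈
      Set.range (IsScalarTower.toAlgHom k L Ω) := by
    intro g z
    exact Z.stable (ρ g) (Or.inl (g.commutes _)) z
  have hfix : ∀ z : L, (∀ g : Ω ≃ₐ[F] Ω, ρ g (IsScalarTower.toAlgHom k L Ω z) = IsScalarTower.toAlgHom k L Ω z) ↔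
      z ∈ Set.range (algebraMap K L) := fun z => Z.fix_L z
  have htr : Transcendental (IntermediateField.adjoin k {Z.l}) Z.x := by
    apply tr_sub (L := L)
    · intro m hm
      have h1 : IntermediateField.adjoin k {Z.l} ≤ (IsScalarTower.toAlgHom k L Ω).fieldRange := by
        rw [IntermediateField.adjoin_le_iff]
        rintro _ rfl
        exact ⟨(algebraMap K L Z.τ) ^ 2, by rw [map_pow]; exact congrArg (· ^ 2) Z.hτ⟩
      exact h1 hm
    · intro h2
      apply Z.B.tr_x (i := 1) (k := 0) (m := 2) (by decide) (by decide) (by decide)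
      have h3 : Z.X0 = algebraMap L Ω (((algebraMap K L Z.τ) ^ 2)⁻¹) * Z.x := by
        rw [map_inv₀, map_pow, Z.hτ]
        change Z.X0 = Z.l⁻¹ * (Z.l * Z.X0)
        rw [← mul_assoc, inv_mul_cancel₀ Z.l_ne, one_mul]
      change IsAlgebraic L Z.X0
      rw [h3]
      exact (isAlgebraic_algebraMap _).mul h2
  refine ⟨Ω ≃ₐ[F] Ω, Ω ≃ₐ[Z.E] Ω, inferInstance, f1, inferInstance, f2, ⟨
    { e := e
      ρ := ρ
      fixF := fun z => ?_
      l := Z.l
      x := Z.x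
      y := Z.y
      hl := (map_pow (algebraMap F Ω) _ _).symm
      ind := ?_
      eqn := ?_
      ρ' := ρ'
      fixE := fun z => ?_
      np := (Finset.univ.filter fun g : Ω ≃ₐ[Z.E] Ω => ρ' g Z.T = Z.T).card
      nm := (Finset.univ.filter fun g : Ω ≃ₐ[Z.E] Ω => ¬ ρ' g Z.T = Z.T).card
      hnp := ?_
      main := fun u hu => ?_ }⟩⟩
  · exact (IsGalois.mem_range_algebraMap_iff_fixed (F := F) z).symm
  · exact Pool.Agent.Helper70.KX.ind_of (Z.tr_T.pow (by norm_num)) htr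
  · have h1 := weier Z.B.hRC (i := 1) (k' := 0) (m := 2) (by decide) (by decide) (by decide) Z.B.eqn
    have h2 : aeval Z.l (27 * X ^ 2 * PS Z.D.c) = 27 * Z.l ^ 2 * PS Z.B.C := by
      have h3 : aeval Z.l (PS Z.D.c) = PS Z.B.C := by
        have h4 := map_PS ((aeval Z.l : k[X] →ₐ[k] Ω) : k[X] →+* Ω) Z.D.c
        have h5 : (fun j => ((aeval Z.l : k[X] →ₐ[k] Ω) : k[X] →+* Ω) (Z.D.c j)) = Z.B.C :=
          funext fun j => (Z.hC j).symm
        rw [h5] at h4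
        exact h4
      rw [map_mul, map_mul, map_pow, aeval_X, map_ofNat, h3]
    have h3 : aeval Z.l (54 * X ^ 3 * PT Z.D.c) = 54 * Z.l ^ 3 * PT Z.B.C := by
      have h3 : aeval Z.l (PT Z.D.c) = PT Z.B.C := by
        have h4 := map_PT ((aeval Z.l : k[X] →ₐ[k] Ω) : k[X] →+* Ω) Z.D.c
        have h5 : (fun j => ((aeval Z.l : k[X] →ₐ[k] Ω) : k[X] →+* Ω) (Z.D.c j)) = Z.B.C :=
          funext fun j => (Z.hC j).symm
        rw [h5] at h4
        exact h4
      rw [map_mul, map_mul, map_pow, aeval_X, map_ofNat, h3]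
    rw [h2, h3]
    change (Z.T ^ 2 * Z.T * Z.Y0) ^ 2 = (Z.T ^ 2 * Z.X0) ^ 3 + 27 * (Z.T ^ 2) ^ 2 * PS Z.B.C * (Z.T ^ 2 * Z.X0) +
      54 * (Z.T ^ 2) ^ 3 * PT Z.B.C
    change Z.Y0 ^ 2 = Z.X0 ^ 3 + 27 * PS Z.B.C * Z.X0 + 54 * PT Z.B.C at h1
    linear_combination Z.T ^ 6 * h1
  · rw [← SetLike.mem_coe]
    refine Iff.trans ?_ (Iff.trans (IsGalois.mem_range_algebraMap_iff_fixed (F := Z.E) z).symm ?_)
    · exact Iff.rfl
    · constructor
      · rintro ⟨m, rfl⟩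
        exact m.2
      · intro h
        exact ⟨⟨z, h⟩, rfl⟩
  · rw [Finset.card_filter_add_card_filter_not]
    exact Fintype.card_pos
  · have key : ∀ g : Ω ≃ₐ[Z.E] Ω, ∃ l : Place k L → k, Harm hL l ∧ ∀ w : RPl k Ω,
        u ((w.comap ((ρ' g : Ω ≃ₐ[k] Ω) : Ω →ₐ[k] Ω)).comap e) =
        (if ρ' g Z.T = Z.T then u (w.comap e) else
          - u ((w.comap e).comap ((Z.D.ι : F ≃ₐ[k] F) : F →ₐ[k] F))) +
          l (w.pl hL (IsScalarTower.toAlgHom k L Ω)) := by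
      intro g
      rcases hsgn g with ⟨h1, h2, h3⟩ | ⟨h1, h2, h3⟩
      · obtain ⟨l, hl, h4⟩ := Z.hrm_pos hL hu (ρ' g) h1 h2 h3
        refine ⟨l, hl, fun w => ?_⟩
        rw [if_pos h1]
        exact h4 w
      · obtain ⟨l, hl, h4⟩ := Z.hrm_neg hL hu (ρ' g) h1 h2 h3
        refine ⟨l, hl, fun w => ?_⟩
        have h5 : ¬ ρ' g Z.T = Z.T := by
          rw [h1]
          intro h6
          apply Z.T_ne
          have h7 : (2 : Ω) * Z.T = 0 := by linear_combination - h6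
          exact (mul_eq_zero.mp h7).resolve_left two_ne_zero
        rw [if_neg h5]
        exact h4 w
    choose lg hlg hlw using key
    choose Cg hCg using fun g => trace_const hK hL hconst (IsScalarTower.toAlgHom k L Ω) ρ hst hfix (hlg g)
    refine ⟨∑ g, Cg g, fun w => ?_⟩
    have h1 : ∀ h : Ω ≃ₐ[F] Ω, (w.comap ((ρ h : Ω ≃ₐ[k] Ω) : Ω →ₐ[k] Ω)).comap (e (k := k) (F := F)) =
        w.comap e := by
      intro h
      rw [RPl.comap_comap]
      congr 1
      apply AlgHom.ext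
      intro z
      exact h.commutes z
    have h2 : ∀ h : Ω ≃ₐ[F] Ω, ∑ g : Ω ≃ₐ[Z.E] Ω, u (((w.comap ((ρ h : Ω ≃ₐ[k] Ω) : Ω →ₐ[k] Ω)).comap
        ((ρ' g : Ω ≃ₐ[k] Ω) : Ω →ₐ[k] Ω)).comap e) =
        (((Finset.univ.filter fun g : Ω ≃ₐ[Z.E] Ω => ρ' g Z.T = Z.T).card : k) * u (w.comap e) -
        ((Finset.univ.filter fun g : Ω ≃ₐ[Z.E] Ω => ¬ ρ' g Z.T = Z.T).card : k) *
          u ((w.comap e).comap ((Z.D.ι : F ≃ₐ[k] F) : F →ₐ[k] F))) +
        ∑ g : Ω ≃ₐ[Z.E] Ω, lg g ((w.comap ((ρ h : Ω ≃ₐ[k] Ω) : Ω →ₐ[k] Ω)).pl hL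
          (IsScalarTower.toAlgHom k L Ω)) := by
      intro h
      simp only [hlw, h1]
      rw [Finset.sum_add_distrib, Finset.sum_ite, Finset.sum_const, Finset.sum_const]
      simp only [nsmul_eq_mul]
      ring
    rw [Finset.sum_congr rfl fun h _ => h2 h, Finset.sum_add_distrib, Finset.sum_const, Finset.card_univ,
      nsmul_eq_mul]
    congr 1
    rw [Finset.sum_comm]
    exact Finset.sum_congr rfl fun g _ => hCg g w

end Ctx

end Pool.Agent.Helper67.KP
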