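import Mathlib
import Pool.Agent.Helper9.NS
import Pool.Agent.Helper67.KP.Mn
import Pool.Agent.Helper5.KP.Rat
import Pool.Agent.Helper70.KX.Line

/-!
# KP: step A, the data exist
-/

set_option linter.unusedSectionVars false

namespace Pool.Agent.Helper67.KP

open VC VF Function Polynomial Pool.Agent.Helper21.TO Pool.Agent.Helper15.GT Pool.Agent.Helper15.KP
open Pool.Agent.Helper51.VN (Harm)

universe u

variable {k : Type u} [Field k] [IsAlgClosed k] [CharZero k]

/-- The binary cubic of the points at infinity. -/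
noncomputable def cubP {F : Type u} [Field F] [Algebra k F] (D : CD k F) : Cubic F :=
  ⟨aeval (D.τ ^ 2) (D.c 0), aeval (D.τ ^ 2) (D.c 1), aeval (D.τ ^ 2) (D.c 3), aeval (D.τ ^ 2) (D.c 6)⟩

section

variable {F : Type u} [Field F] [Algebra k F] (D : CD k F)

lemma tr_sq : Transcendental k (D.τ ^ 2) :=
  (Pool.Agent.Helper70.KX.ind_fst D.ind).pow (by norm_num)

lemma aev_ne {p : k[X]} (hp : p ≠ 0) : aeval (D.τ ^ 2) p ≠ 0 :=
  fun h => hp (transcendental_iff.mp (tr_sq D) p h)

lemma cubP_a : (cubP D).a ≠ 0 := aev_ne D D.c0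

lemma cubP_discr : (cubP D).discr ≠ 0 := by
  have h : (cubP D).discr = aeval (D.τ ^ 2) (Dbin D.c) := by
    simp only [Cubic.discr, cubP, Dbin, map_add, map_sub, map_mul, map_pow, map_ofNat]
  rw [h]
  exact aev_ne D D.bin

end

/-- The construction in a splitting field. -/
theorem exists_a1_split {F : Type u} [Field F] [Algebra k F] (D : CD k F) {Ω : Type u} [Field Ω] [Algebra F Ω]
    [Algebra k Ω] [IsScalarTower k F Ω] (hsp : (cubP D).toPoly.IsSplittingField F Ω) :
    ∃ (G Γ : Type u) (_ : Group G) (_ : Fintype G) (_ : Group Γ)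
      (_ : Fintype Γ), Nonempty (A1 D Ω G Γ) := by
  classical
  have z1 : CharZero F := charZero_of_injective_algebraMap (algebraMap k F).injective
  have z2 : CharZero Ω := charZero_of_injective_algebraMap (algebraMap k Ω).injective
  have i1 : FiniteDimensional F Ω := IsSplittingField.finiteDimensional Ω (cubP D).toPoly
  have i2 : Normal F Ω := Normal.of_isSplittingField (cubP D).toPoly
  have i3 : IsGalois F Ω := ⟨⟩
  -- the roots
  obtain ⟨v0, v1, v2, hroots⟩ := (Cubic.splits_iff_roots_eq_three (φ := algebraMap F Ω) (cubP_a D)).mp hsp.splits'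
  have hb := Cubic.b_eq_three_roots (cubP_a D) hroots
  have hc := Cubic.c_eq_three_roots (cubP_a D) hroots
  have hd := Cubic.d_eq_three_roots (cubP_a D) hroots
  obtain ⟨n01, n02, n12⟩ := (Cubic.discr_ne_zero_iff_roots_ne (cubP_a D) hroots).mp (cubP_discr D)
  obtain ⟨v, hv0, hv1, hv2⟩ : ∃ v : Fin 3 → Ω, v 0 = v0 ∧ v 1 = v1 ∧ v 2 = v2 := ⟨![v0, v1, v2], rfl, rfl, rfl⟩
  have hvinj : Function.Injective v := by
    intro i j hij
    fin_cases i <;> fin_cases j
    · rfl
    · exact absurd (hv0.symm.trans (hij.trans hv1)) n01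
    · exact absurd (hv0.symm.trans (hij.trans hv2)) n02
    · exact absurd (hv0.symm.trans (hij.symm.trans hv1)) n01
    · rfl
    · exact absurd (hv1.symm.trans (hij.trans hv2)) n12
    · exact absurd (hv0.symm.trans (hij.symm.trans hv2)) n02
    · exact absurd (hv1.symm.trans (hij.symm.trans hv2)) n12
    · rfl
  -- the fields
  let K : IntermediateField k F := IntermediateField.adjoin k {D.τ}
  let τ : K := ⟨D.τ, IntermediateField.mem_adjoin_simple_self k D.τ⟩
  have z3 : CharZero K := charZero_of_injective_algebraMap (algebraMap k K).injective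
  let L : IntermediateField K Ω := IntermediateField.adjoin K (Set.range v)
  have z4 : CharZero L := charZero_of_injective_algebraMap (algebraMap K L).injective
  have i5 : IsScalarTower k L Ω := IsScalarTower.of_algebraMap_eq fun x => by
    rw [IsScalarTower.algebraMap_apply k K L x, ← IsScalarTower.algebraMap_apply K L Ω,
      ← IsScalarTower.algebraMap_apply k K Ω]
  have hτΩ : algebraMap L Ω (algebraMap K L τ) = algebraMap F Ω D.τ := rfl
  have hcK : ∀ p : k[X], algebraMap K Ω (aeval (τ ^ 2) p) = aeval (algebraMap F Ω D.τ ^ 2) p := by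
    intro p
    rw [← aeval_algebraMap_apply, map_pow]
    rfl
  have hcF : ∀ p : k[X], algebraMap F Ω (aeval (D.τ ^ 2) p) = aeval (algebraMap F Ω D.τ ^ 2) p := by
    intro p
    rw [← aeval_algebraMap_apply, map_pow]
  have hRt : Rts (fun j => aeval (algebraMap F Ω D.τ ^ 2) (D.c j)) v := by
    refine ⟨?_, ?_, ?_⟩
    · have h := hb
      change algebraMap F Ω (aeval (D.τ ^ 2) (D.c 1)) = algebraMap F Ω (aeval (D.τ ^ 2) (D.c 0)) * _ at h
      rw [hcF, hcF] at h
      beta_reduce
      rw [h, hv0, hv1, hv2]
      ring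
    · have h := hc
      change algebraMap F Ω (aeval (D.τ ^ 2) (D.c 3)) = algebraMap F Ω (aeval (D.τ ^ 2) (D.c 0)) * _ at h
      rw [hcF, hcF] at h
      beta_reduce
      rw [h, hv0, hv1, hv2]
      ring
    · have h := hd
      change algebraMap F Ω (aeval (D.τ ^ 2) (D.c 6)) = algebraMap F Ω (aeval (D.τ ^ 2) (D.c 0)) * _ at h
      rw [hcF, hcF] at h
      beta_reduce
      rw [h, hv0, hv1, hv2]
      ring
  have hbin : ∀ j, bin (fun j => aeval (algebraMap F Ω D.τ ^ 2) (D.c j)) (v j) = 0 := fun j =>
    Pool.Agent.Helper15.KP.bin_eq hRt j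
  have hint : ∀ z ∈ Set.range v, IsIntegral K z := by
    rintro _ ⟨j, rfl⟩
    rw [← isAlgebraic_iff_isIntegral]
    refine ⟨Polynomial.C (aeval (τ ^ 2) (D.c 0)) * X ^ 3 + Polynomial.C (aeval (τ ^ 2) (D.c 1)) * X ^ 2 +
      Polynomial.C (aeval (τ ^ 2) (D.c 3)) * X + Polynomial.C (aeval (τ ^ 2) (D.c 6)), ?_, ?_⟩
    · intro h0
      have h1 := congrArg (fun p => coeff p 3) h0
      have h2 : aeval (τ ^ 2) (D.c 0) = 0 := by simpa [coeff_X, coeff_C] using h1
      have h3 := congrArg (algebraMap K F) h2
      rw [map_zero, ← aeval_algebraMap_apply, map_pow] at h3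
      exact aev_ne D D.c0 h3
    · have h := hbin j
      simp only [bin] at h
      simp only [map_add, map_mul, map_pow, aeval_X, aeval_C, hcK]
      exact h
  have i4 : FiniteDimensional K L := IntermediateField.finiteDimensional_adjoin hint
  have genK : IntermediateField.adjoin k {τ} = ⊤ := Pool.Agent.Helper70.KX.adjoin_gen_top D.τ
  have hK : IsFunctionField k K := Pool.Agent.Helper70.KX.line_ff
    (Pool.Agent.Helper70.KX.trans_gen (Pool.Agent.Helper70.KX.ind_fst D.ind)) genK
  have hL : IsFunctionField k L := ff_ext hK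
  -- the cubic
  let vL : Fin 3 → L := fun j => ⟨v j, IntermediateField.subset_adjoin K _ ⟨j, rfl⟩⟩
  have hvL : ∀ j, algebraMap L Ω (vL j) = v j := fun j => rfl
  let c : Fin 10 → L := fun j => aeval ((algebraMap K L τ) ^ 2) (D.c j)
  have hcL : ∀ p : k[X], algebraMap L Ω (aeval ((algebraMap K L τ) ^ 2) p) = aeval (algebraMap F Ω D.τ ^ 2) p := by
    intro p
    rw [← aeval_algebraMap_apply, map_pow, hτΩ]
  have hinjL : Function.Injective (algebraMap L Ω) := (algebraMap L Ω).injective
  have hcne : ∀ p : k[X], p ≠ 0 → aeval ((algebraMap K L τ) ^ 2) p ≠ 0 := by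
    intro p hp h0
    have h1 := congrArg (algebraMap L Ω) h0
    rw [hcL, map_zero, ← hcF] at h1
    exact aev_ne D hp ((map_eq_zero_iff _ (algebraMap F Ω).injective).mp h1)
  have hRL : Rts c vL := by
    obtain ⟨h1, h2, h3⟩ := hRt
    refine ⟨hinjL ?_, hinjL ?_, hinjL ?_⟩
    · simp only [c, map_mul, map_add, map_neg, hcL, hvL]
      exact h1
    · simp only [c, map_mul, map_add, hcL, hvL]
      exact h2
    · simp only [c, map_mul, map_neg, hcL, hvL]
      exact h3
  have genL : IntermediateField.adjoin k (insert (algebraMap K L τ) (Set.range vL)) = ⊤ := by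
    rw [eq_top_iff]
    intro z _
    set N := IntermediateField.adjoin k (insert (algebraMap K L τ) (Set.range vL)) with hN
    have hKN : ∀ a : K, algebraMap K L a ∈ N := by
      intro a
      have ha : a ∈ IntermediateField.adjoin k {τ} := by rw [genK]; exact IntermediateField.mem_top
      induction ha using IntermediateField.adjoin_induction with
      | mem x hx =>
        obtain rfl : x = τ := hx
        exact IntermediateField.subset_adjoin k _ (Or.inl rfl)
      | algebraMap x =>
        rw [← IsScalarTower.algebraMap_apply k K L]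
        exact N.algebraMap_mem x
      | add x y _ _ hx hy => rw [map_add]; exact add_mem hx hy
      | inv x _ hx => rw [map_inv₀]; exact inv_mem hx
      | mul x y _ _ hx hy => rw [map_mul]; exact mul_mem hx hy
    have key : ∀ z ∈ IntermediateField.adjoin K (Set.range v), ∃ z' ∈ N, algebraMap L Ω z' = z := by
      intro z hz
      induction hz using IntermediateField.adjoin_induction with
      | mem x hx =>
        obtain ⟨j, rfl⟩ := hx
        exact ⟨vL j, IntermediateField.subset_adjoin k _ (Or.inr ⟨j, rfl⟩), rfl⟩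
      | algebraMap x => exact ⟨algebraMap K L x, hKN x, rfl⟩
      | add x y _ _ hx hy =>
        obtain ⟨x', hx', rfl⟩ := hx
        obtain ⟨y', hy', rfl⟩ := hy
        exact ⟨x' + y', add_mem hx' hy', map_add _ _ _⟩
      | inv x _ hx =>
        obtain ⟨x', hx', rfl⟩ := hx
        exact ⟨x'⁻¹, inv_mem hx', map_inv₀ _ _⟩
      | mul x y _ _ hx hy =>
        obtain ⟨x', hx', rfl⟩ := hx
        obtain ⟨y', hy', rfl⟩ := hy
        exact ⟨x' * y', mul_mem hx' hy', map_mul _ _ _⟩
    obtain ⟨z', hz', hzz⟩ := key _ z.2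
    have : z' = z := hinjL hzz
    rw [← this]
    exact hz'
  have gen : IntermediateField.adjoin L {algebraMap F Ω D.s, algebraMap F Ω D.t} = ⊤ := by
    rw [eq_top_iff]
    intro z _
    set N := IntermediateField.adjoin L {algebraMap F Ω D.s, algebraMap F Ω D.t} with hN
    have hFN : ∀ a : F, algebraMap F Ω a ∈ N := by
      intro a
      have ha : a ∈ IntermediateField.adjoin k {D.τ, D.s, D.t} := by rw [D.gen]; exact IntermediateField.mem_top
      induction ha using IntermediateField.adjoin_induction with
      | mem x hx =>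
        rcases hx with rfl | rfl | rfl
        · rw [← hτΩ]
          exact N.algebraMap_mem _
        · exact IntermediateField.subset_adjoin L _ (Or.inl rfl)
        · exact IntermediateField.subset_adjoin L _ (Or.inr rfl)
      | algebraMap x =>
        rw [← IsScalarTower.algebraMap_apply k F Ω, IsScalarTower.algebraMap_apply k L Ω]
        exact N.algebraMap_mem _
      | add x y _ _ hx hy => rw [map_add]; exact add_mem hx hy
      | inv x _ hx => rw [map_inv₀]; exact inv_mem hx
      | mul x y _ _ hx hy => rw [map_mul]; exact mul_mem hx hy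
    have hz : z ∈ IntermediateField.adjoin F ((cubP D).toPoly.rootSet Ω) := by
      rw [(isSplittingField_iff_intermediateField.mp hsp).2]
      exact IntermediateField.mem_top
    induction hz using IntermediateField.adjoin_induction with
    | mem x hx =>
      have hx1 : x ∈ (Cubic.map (algebraMap F Ω) (cubP D)).roots := by
        rw [Cubic.map_roots]
        exact (mem_rootSet'.mp hx).elim fun h1 h2 => (mem_roots h1).mpr (by
          rw [IsRoot, eval_map]; exact h2)
      rw [hroots] at hx1
      have hx2 : x = v 0 ∨ x = v 1 ∨ x = v 2 := by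
        rw [hv0, hv1, hv2]
        simpa using hx1
      rcases hx2 with rfl | rfl | rfl
      · rw [← hvL]; exact N.algebraMap_mem _
      · rw [← hvL]; exact N.algebraMap_mem _
      · rw [← hvL]; exact N.algebraMap_mem _
    | algebraMap x => exact hFN x
    | add x y _ _ hx hy => exact add_mem (hx trivial) (hy trivial)
    | inv x _ hx => exact inv_mem (hx trivial)
    | mul x y _ _ hx hy => exact mul_mem (hx trivial) (hy trivial)
  have htr : Transcendental L (algebraMap F Ω D.s) := by
    intro h
    have h1 : IsAlgebraic K (algebraMap F Ω D.s) := h.restrictScalars K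
    have h2 : IsAlgebraic K D.s := by
      obtain ⟨p, hp, hp'⟩ := h1
      refine ⟨p, hp, ?_⟩
      rw [aeval_algebraMap_apply] at hp'
      exact (map_eq_zero_iff _ (algebraMap F Ω).injective).mp hp'
    exact Pool.Agent.Helper70.KX.ind_snd D.ind h2
  have hDsc : Dsc c ≠ 0 := by
    have h1 := map_Dsc ((aeval ((algebraMap K L τ) ^ 2) : k[X] →ₐ[k] L) : k[X] →+* L) D.c
    intro h0
    refine hcne (Dsc D.c) D.dsc ?_
    exact h1.trans h0
  let B : Cfg L Ω :=
    { c := c
      v := vL
      hR := hRL
      c0 := hcne _ D.c0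
      hv := fun i j hij => hvinj (congrArg Subtype.val hij)
      dsc := hDsc
      s := algebraMap F Ω D.s
      t := algebraMap F Ω D.t
      eqn := by
        have h1 := map_cub (algebraMap F Ω) (fun i => aeval (D.τ ^ 2) (D.c i)) D.s D.t
        rw [D.eqn, map_zero] at h1
        simp only [hcF] at h1
        simp only [c, hcL]
        exact h1.symm
      tr := htr
      gen := gen }
  let Z : Ctx k K L F Ω :=
    { D := D
      B := B
      hs := rfl
      ht := rfl
      τ := τ
      hτ := hτΩ
      hc := fun j => rfl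
      genK := genK
      genL := genL }
  exact Z.exists_A1 hK hL fun μ hμ P Q => harm_kx hK τ genK hμ P Q

end Pool.Agent.Helper67.KP

namespace Pool.Agent.Helper15.KP

open VC VF Function Polynomial Pool.Agent.Helper21.TO Pool.Agent.Helper15.GT

universe u

variable {k : Type u} [Field k] [IsAlgClosed k] [CharZero k]

/-- STEP A, the data exist. -/
theorem exists_a1 {F : Type u} [Field F] [Algebra k F] (D : CD k F) :
    ∃ (Ω : Type u) (_ : Field Ω) (_ : Algebra k Ω) (G Γ : Type u) (_ : Group G) (_ : Fintype G) (_ : Group Γ)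
      (_ : Fintype Γ), Nonempty (A1 D Ω G Γ) := by
  obtain ⟨G, Γ, i1, i2, i3, i4, h⟩ := Pool.Agent.Helper67.KP.exists_a1_split D
    (Ω := (Pool.Agent.Helper67.KP.cubP D).toPoly.SplittingField) (IsSplittingField.splittingField _)
  exact ⟨_, inferInstance, inferInstance, G, Γ, i1, i2, i3, i4, h⟩

end Pool.Agent.Helper15.KP

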